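import Mathlib
import Pool.Agent.H964.CW.Stm2

/-! # Project CW (helper964), task DE: second moment of the logarithm up to the end of the horizon -/

set_option autoImplicit false

open MeasureTheory ProbabilityTheory Filter Finset

namespace Pool.Agent.H36.CW

open Pool.Agent.H964.QC Pool.Agent.H964.CW

lemma ev_pow_exp (K a : ℝ) (n : ℕ) (ha : 0 < a) :
    ∀ᶠ r : ℝ in atTop, K * r ^ n ≤ Real.exp (a * r) := by
  have h := (isLittleO_pow_exp_pos_mul_atTop (k := n) ha).bound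
    (c := 1 / (|K| + 1)) (by positivity)
  filter_upwards [h, eventually_ge_atTop (0 : ℝ)] with r hr hr0
  rw [Real.norm_of_nonneg (pow_nonneg hr0 n), Real.norm_of_nonneg (Real.exp_pos _).le] at hr
  have h1 : (|K| + 1) * r ^ n ≤ Real.exp (a * r) := by
    have hK : 0 < |K| + 1 := by positivity
    calc (|K| + 1) * r ^ n ≤ (|K| + 1) * (1 / (|K| + 1) * Real.exp (a * r)) :=
          mul_le_mul_of_nonneg_left hr hK.le
      _ = Real.exp (a * r) := by field_simp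
  refine le_trans ?_ h1
  apply mul_le_mul_of_nonneg_right _ (pow_nonneg hr0 n)
  linarith [le_abs_self K]

/-- the three asymptotic inequalities -/
lemma ev_three (K1 K2 K3 : ℝ) : ∃ r0 : ℝ, 1 ≤ r0 ∧ ∀ r : ℝ, r0 ≤ r →
    K1 * r ^ 160 ≤ Real.exp ((2 * r - 1) / 8) ∧
    K2 * r ^ 20 * Real.exp (r / 4) ≤ Real.exp ((2 * r - 1) / 4) ∧
    K3 * r ^ 2000 ≤ Real.exp (Real.exp ((2 * r - 1) / 80) / 2) := by
  have h1 := ev_pow_exp (K1 * Real.exp (1 / 8)) (1 / 4) 160 (by norm_num)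
  have h2 := ev_pow_exp (K2 * Real.exp (1 / 4)) (1 / 4) 20 (by norm_num)
  have h3 := ev_pow_exp K3 1 2000 (by norm_num)
  have h4 := ev_pow_exp (2 * Real.exp (1 / 80)) (1 / 40) 1 (by norm_num)
  obtain ⟨r0, hr0⟩ := eventually_atTop.mp (h1.and (h2.and (h3.and h4)))
  refine ⟨max r0 1, le_max_right _ _, fun r hr => ?_⟩
  obtain ⟨a1, a2, a3, a4⟩ := hr0 r (le_trans (le_max_left _ _) hr)
  refine ⟨?_, ?_, ?_⟩
  · have e1 : Real.exp ((2 * r - 1) / 8) = Real.exp (1 / 4 * r) * Real.exp (-(1 / 8)) := by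
      rw [← Real.exp_add]; congr 1; ring
    rw [e1]
    have e2 : K1 * r ^ 160 = K1 * Real.exp (1 / 8) * r ^ 160 * Real.exp (-(1 / 8)) := by
      have : Real.exp (1 / 8) * Real.exp (-(1 / 8)) = 1 := by
        rw [← Real.exp_add]; simp
      linear_combination (-(K1 * r ^ 160)) * this
    rw [e2]
    exact mul_le_mul_of_nonneg_right a1 (Real.exp_pos _).le
  · have e1 : Real.exp ((2 * r - 1) / 4) = Real.exp (1 / 4 * r) * (Real.exp (r / 4) * Real.exp (-(1 / 4))) := by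
      rw [← Real.exp_add, ← Real.exp_add]; congr 1; ring
    rw [e1]
    have e2 : K2 * r ^ 20 * Real.exp (r / 4) =
        K2 * Real.exp (1 / 4) * r ^ 20 * (Real.exp (r / 4) * Real.exp (-(1 / 4))) := by
      have : Real.exp (1 / 4) * Real.exp (-(1 / 4)) = 1 := by
        rw [← Real.exp_add]; simp
      linear_combination (-(K2 * r ^ 20 * Real.exp (r / 4))) * this
    rw [e2]
    exact mul_le_mul_of_nonneg_right a2 (by positivity)
  · refine a3.trans (Real.exp_le_exp.mpr ?_)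
    have e1 : Real.exp ((2 * r - 1) / 80) = Real.exp (1 / 40 * r) * Real.exp (-(1 / 80)) := by
      rw [← Real.exp_add]; congr 1; ring
    have e3 : Real.exp (1 / 80) * Real.exp (-(1 / 80)) = 1 := by
      rw [← Real.exp_add]; simp
    rw [e1]
    have e4 : 2 * r = 2 * Real.exp (1 / 80) * r ^ 1 * Real.exp (-(1 / 80)) := by
      linear_combination (-(2 * r)) * e3
    have e5 := mul_le_mul_of_nonneg_right a4 (Real.exp_pos (-(1 / 80 : ℝ))).le
    rw [← e4] at e5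
    linarith

/-- the logarithm squared on the upper side -/
lemma log_sq_le (z : ℝ) (hz : 0 < z) : (Real.log z) ^ 2 ≤ (max (-Real.log z) 0) ^ 2 + z := by
  rcases le_or_gt (Real.log z) 0 with h | h
  · rw [max_eq_left (by linarith)]
    nlinarith
  · rw [max_eq_right (by linarith)]
    have h1 : z = Real.exp (Real.log z) := (Real.exp_log hz).symm
    have h2 := Real.quadratic_le_exp_of_nonneg h.le
    have h3 : Real.log z ^ 2 ≤ Real.exp (Real.log z) := by
      have h4 : Real.exp (Real.log z) = Real.exp (Real.log z / 2) ^ 2 := by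
        rw [← Real.exp_nat_mul]; congr 1; push_cast; ring
      rw [h4]
      have h5 : Real.log z ≤ Real.exp (Real.log z / 2) := by
        have h6 := Real.quadratic_le_exp_of_nonneg (x := Real.log z / 2) (by linarith)
        nlinarith [sq_nonneg (Real.log z / 2 - 1)]
      exact pow_le_pow_left₀ h.le h5 2
    rw [← h1] at h3
    linarith

lemma RR_mono (hRR : S_RR) {a b : ℕ} (h : a ≤ b) : RR a ≤ RR b := by
  obtain ⟨-, -, -, -, -, h6, -⟩ := hRR
  have h1 := h6 a b h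
  have h2 : 0 ≤ Real.log (((b : ℝ) + 1) / ((a : ℝ) + 1)) := by
    apply Real.log_nonneg
    rw [le_div_iff₀ (by positivity)]
    have : (a : ℝ) ≤ b := by exact_mod_cast h
    linarith
  linarith

/-- the logarithm of the ratio of the times -/
lemma log_ratio_le (hRR : S_RR) {t N : ℕ} (ht : 1 ≤ t) (h : t ≤ N) {s θ : ℝ}
    (hN : -θ ≤ s - RR N) :
    Real.log (1 + ((N - t : ℕ) : ℝ) / t) ≤ 1 + 4 * θ + 4 * |s - RR t| := by
  obtain ⟨-, -, -, -, -, h6, -⟩ := hRR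
  have h1 := h6 t N h
  have htR : (1 : ℝ) ≤ t := by exact_mod_cast ht
  have hNR : (t : ℝ) ≤ N := by exact_mod_cast h
  have h2 : 1 + ((N - t : ℕ) : ℝ) / t = (N : ℝ) / t := by
    rw [Nat.cast_sub h]
    field_simp
    ring
  rw [h2]
  have h3 : (N : ℝ) / t ≤ 2 * (((N : ℝ) + 1) / ((t : ℝ) + 1)) := by
    rw [div_le_iff₀ (by linarith)]
    have h4 : 2 * (((N : ℝ) + 1) / ((t : ℝ) + 1)) * t = (2 * ((N : ℝ) + 1) * t) / ((t : ℝ) + 1) := by
      ring
    rw [h4, le_div_iff₀ (by linarith)]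
    nlinarith
  have h5 : Real.log ((N : ℝ) / t) ≤ Real.log (2 * (((N : ℝ) + 1) / ((t : ℝ) + 1))) :=
    Real.log_le_log (div_pos (by linarith) (by linarith)) h3
  rw [Real.log_mul (by norm_num) (by positivity)] at h5
  have h7 : Real.log 2 ≤ 1 := by
    have := Real.log_two_lt_d9
    linarith
  have h8 := le_abs_self (s - RR t)
  linarith

theorem t_DE : S_DE := by
  intro hLTB hAP hTLI hMEAS hRR _ C0 κ θ1 hC0 hκ hθ1
  obtain ⟨CL, hCL1, hL⟩ := hLTB C0 θ1 hC0 hθ1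
  obtain ⟨CA, hCA1, hA⟩ := hAP C0 θ1 hC0 hθ1
  obtain ⟨CT, hCT1, hT⟩ := hTLI
  obtain ⟨r0, hr01, hr0⟩ := ev_three (CL * (4 + 4 * θ1) ^ 8 * 4 ^ 8) CL (CA ^ 100)
  refine ⟨max (max CL CA) (max (r0 ^ 20) ((CL * (4 + 4 * θ1) ^ 8) ^ 2 + CT + 2)), ?_, ?_⟩
  · exact le_trans hCL1 (le_trans (le_max_left _ _) (le_max_left _ _))
  intro N0 M _ W hW Ω _ P _ s2 η w t N b hs2 hs2C hη hr htN hN0 hend hb0 hb hgood
  set Cm := max (max CL CA) (max (r0 ^ 20) ((CL * (4 + 4 * θ1) ^ 8) ^ 2 + CT + 2)) with hCm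
  have hCmL : CL ≤ Cm := le_trans (le_max_left _ _) (le_max_left _ _)
  have hCmA : CA ≤ Cm := le_trans (le_max_right _ _) (le_max_left _ _)
  have hCmr : r0 ^ 20 ≤ Cm := le_trans (le_max_left _ _) (le_max_right _ _)
  have hCmK : (CL * (4 + 4 * θ1) ^ 8) ^ 2 + CT + 2 ≤ Cm :=
    le_trans (le_max_right _ _) (le_max_right _ _)
  have hCm0 : 0 < Cm := by linarith
  have hCms : Cm ≤ 1 / s2 := by
    rw [le_div_iff₀ hs2]
    rw [le_div_iff₀ hCm0] at hs2C
    linarith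
  have hs2L : s2 ≤ 1 / CL := by
    rw [le_div_iff₀ (by linarith)]
    rw [le_div_iff₀ hCm0] at hs2C
    nlinarith
  have hs2A : s2 ≤ 1 / CA := by
    rw [le_div_iff₀ (by linarith)]
    rw [le_div_iff₀ hCm0] at hs2C
    nlinarith
  -- `r = RR t` is large
  obtain ⟨r, hrdef⟩ : ∃ r, r = RR t := ⟨_, rfl⟩
  rw [← hrdef] at hr hb
  have hinv0 : 0 < 1 / s2 := by positivity
  have hrpos : 0 < r := lt_of_lt_of_le (Real.rpow_pos_of_pos hinv0 _) hr
  have hsr : 1 / s2 ≤ r ^ 20 := by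
    have h1 : ((1 / s2) ^ (1 / 20 : ℝ)) ^ 20 ≤ r ^ 20 :=
      pow_le_pow_left₀ (Real.rpow_nonneg hinv0.le _) hr 20
    rw [← Real.rpow_natCast, ← Real.rpow_mul hinv0.le] at h1
    norm_num at h1
    simpa using h1
  have hrr0 : r0 ≤ r := by
    by_contra hlt
    push Not at hlt
    have : r ^ 20 < r0 ^ 20 := pow_lt_pow_left₀ hlt hrpos.le (by norm_num)
    linarith
  have hr1 : 1 ≤ r := le_trans hr01 hrr0
  obtain ⟨a1, a2, a3⟩ := hr0 r hrr0
  -- `t ≥ 1`
  have ht1 : 1 ≤ t := by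
    rcases Nat.eq_zero_or_pos t with h | h
    · exfalso
      rw [h] at hrdef
      have : RR 0 = 0 := by simp [RR]
      rw [this] at hrdef
      linarith
    · exact h
  have htR : (1 : ℝ) ≤ t := by exact_mod_cast ht1
  have hlogt : 2 * r - 1 ≤ Real.log t := by
    obtain ⟨-, -, -, -, -, -, h7⟩ := hRR
    have := h7 t ht1
    rw [← hrdef] at this
    linarith
  -- the scale `p = t^(1/8)`
  obtain ⟨p, hp⟩ : ∃ p, p = Real.exp (Real.log t / 8) := ⟨_, rfl⟩
  have hp0 : 0 < p := by rw [hp]; exact Real.exp_pos _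
  have hp4 : Real.sqrt t = p ^ 4 := by
    rw [Real.sqrt_eq_iff_mul_self_eq (by linarith) (by positivity)]
    rw [hp, ← Real.exp_nat_mul, ← Real.exp_add]
    have : (((4 : ℕ) : ℝ) * (Real.log t / 8) + ((4 : ℕ) : ℝ) * (Real.log t / 8)) = Real.log t := by
      push_cast; ring
    rw [this, Real.exp_log (by linarith)]
  have hp1 : Real.exp ((2 * r - 1) / 8) ≤ p := by
    rw [hp]
    exact Real.exp_le_exp.mpr (by linarith)
  have hp2 : Real.exp ((2 * r - 1) / 4) ≤ p ^ 2 := by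
    rw [hp, ← Real.exp_nat_mul]
    apply Real.exp_le_exp.mpr
    push_cast
    linarith
  have hp3 : Real.exp ((2 * r - 1) / 80) ≤ p ^ (1 / 10 : ℝ) := by
    rw [hp, ← Real.exp_mul]
    exact Real.exp_le_exp.mpr (by linarith)
  -- the lower threshold
  obtain ⟨S, hS⟩ : ∃ S, S = 1 + b + |1 / s2 - RR t| := ⟨_, rfl⟩
  have hS1 : 1 ≤ S := by
    rw [hS]
    have := abs_nonneg (1 / s2 - RR t)
    linarith
  have hlog := log_ratio_le hRR ht1 htN hend
  obtain ⟨Λ, hΛ⟩ : ∃ Λ, Λ = 1 + Real.log (Real.exp b) + Real.log (1 + ((N - t : ℕ) : ℝ) / t) :=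
    ⟨_, rfl⟩
  have hlog0 : 0 ≤ Real.log (1 + ((N - t : ℕ) : ℝ) / t) := by
    apply Real.log_nonneg
    have : (0 : ℝ) ≤ ((N - t : ℕ) : ℝ) / t := by positivity
    linarith
  have hΛ1 : 1 ≤ Λ := by
    rw [hΛ, Real.log_exp]
    linarith
  have hΛS : Λ ≤ (4 + 4 * θ1) * S := by
    rw [hΛ, Real.log_exp, hS]
    have h1 := abs_nonneg (1 / s2 - RR t)
    nlinarith
  have hSr : S ≤ 4 * r ^ 20 := by
    rw [hS, ← hrdef]
    have h1 : |1 / s2 - r| ≤ 1 / s2 + r := by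
      rw [abs_le]
      constructor <;> linarith
    have h2 : r ≤ r ^ 20 := by
      calc r = r ^ 1 := (pow_one r).symm
        _ ≤ r ^ 20 := pow_le_pow_right₀ hr1 (by norm_num)
    linarith
  obtain ⟨u0, hu0⟩ : ∃ u0, u0 = CL * Λ ^ 8 := ⟨_, rfl⟩
  have hu01 : 1 ≤ u0 := by
    rw [hu0]
    have h1 : (1 : ℝ) ≤ Λ ^ 8 := one_le_pow₀ hΛ1
    calc (1 : ℝ) = 1 * 1 := by norm_num
      _ ≤ CL * Λ ^ 8 := mul_le_mul hCL1 h1 zero_le_one (by linarith)
  have hu0S : u0 ≤ CL * (4 + 4 * θ1) ^ 8 * S ^ 8 := by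
    rw [hu0, mul_assoc, ← mul_pow]
    exact mul_le_mul_of_nonneg_left (pow_le_pow_left₀ (by linarith) hΛS 8) (by linarith)
  have hu0p : u0 ≤ p := by
    refine hu0S.trans (le_trans ?_ (a1.trans hp1))
    have h1 : S ^ 8 ≤ 4 ^ 8 * r ^ 160 := by
      calc S ^ 8 ≤ (4 * r ^ 20) ^ 8 := pow_le_pow_left₀ (by linarith) hSr 8
        _ = 4 ^ 8 * r ^ 160 := by ring
    calc CL * (4 + 4 * θ1) ^ 8 * S ^ 8 ≤ CL * (4 + 4 * θ1) ^ 8 * (4 ^ 8 * r ^ 160) :=
          mul_le_mul_of_nonneg_left h1 (by positivity)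
      _ = CL * (4 + 4 * θ1) ^ 8 * 4 ^ 8 * r ^ 160 := by ring
  -- the random variables
  have hnoise : Noise P s2 κ η := hη.1
  obtain ⟨-, hpos, -, -, -, -, -, hZm, hZi, -, -⟩ := hMEAS _ C0 N0 W Ω P s2 κ η hnoise
  have hZpos : ∀ ω, 0 < ∑ y, w y * Zr W (cfg η ω) (N - t) y := by
    intro ω
    have hz : ∀ y, 0 < Zr W (cfg η ω) (N - t) y :=
      fun y => hpos (cfg η ω) (N - t) y (fun n v => hnoise.gt n v ω)
    apply Finset.sum_pos'
    · intro y _
      exact mul_nonneg (hgood.nonneg y) (hz y).le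
    · by_contra hcon
      push Not at hcon
      have h0 : ∀ y, w y = 0 := by
        intro y
        rcases (hgood.nonneg y).lt_or_eq with h | h
        · exfalso
          have := hcon y (Finset.mem_univ y)
          have h2 := mul_pos h (hz y)
          linarith
        · exact h.symm
      have := hgood.sum
      simp [h0] at this
  have hZint : Integrable (fun ω => ∑ y, w y * Zr W (cfg η ω) (N - t) y) P := by
    apply integrable_finsetSum
    intro y _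
    exact ((hZm (N - t) y).integrable (by norm_num)).const_mul _
  have hZE : ∫ ω, ∑ y, w y * Zr W (cfg η ω) (N - t) y ∂P = 1 := by
    rw [integral_finsetSum]
    · rw [← hgood.sum]
      apply Finset.sum_congr rfl
      intro y _
      rw [integral_const_mul, hZi, mul_one]
    · intro y _
      exact ((hZm (N - t) y).integrable (by norm_num)).const_mul _
  have hsuppt : ∀ x, w x ≠ 0 → |X1 x| ≤ t ∧ |X2 x| ≤ t := by
    intro x hx
    exact hW.cls_rng t x (hgood.cls x hx)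
  have hRRT : -θ1 ≤ 1 / s2 - RR (N - t) := by
    have := RR_mono hRR (Nat.sub_le N t)
    linarith
  obtain ⟨hm4, hi4⟩ := hA N0 M W hW Ω P s2 κ η w t (N - t) hs2 hs2A hη hgood.nonneg hgood.sum hsuppt
    (by omega) hRRT
  have hm2 : MemLp (fun ω => lgZ W (N - t) w (cfg η ω)) 2 P :=
    hm4.mono_exponent (by norm_num)
  refine ⟨hm2, ?_⟩
  -- the tail
  have htail : ∀ u, u0 ≤ u → u ≤ p →
      P.real {ω | u < -lgZ W (N - t) w (cfg η ω)} ≤ Real.exp (-(u ^ (1 / 10 : ℝ))) := by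
    intro u hu hup
    have hu1 : 1 ≤ u := hu01.trans hu
    have h1 := hL N0 M W hW Ω P s2 κ η w t (N - t) (Real.exp b) u hs2 hs2L hnoise ht1
      (Real.one_le_exp hb0) (by omega) hgood (by rw [Nat.add_sub_cancel' htN]; exact hend)
      (by rw [← hΛ, ← hu0]; exact hu) ?_
    · have h2 : {ω | u < -lgZ W (N - t) w (cfg η ω)} =
          {ω | ∑ z, w z * Zr W (cfg η ω) (N - t) z < Real.exp (-u)} := by
        ext ω
        simp only [Set.mem_ofPred_eq, lgZ]
        rw [← Real.log_lt_iff_lt_exp (hZpos ω)]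
        constructor <;> intro h <;> linarith
      rw [h2]
      exact h1
    · rw [hp4]
      have h3 : CL * r ^ 20 * Real.exp (r / 4) ≤ p ^ 2 := a2.trans hp2
      have h4 : CL * Real.exp b / s2 ≤ p ^ 2 := by
        refine le_trans ?_ h3
        have h5 : Real.exp b ≤ Real.exp (r / 4) := Real.exp_le_exp.mpr hb
        calc CL * Real.exp b / s2 = CL * (1 / s2) * Real.exp b := by ring
          _ ≤ CL * r ^ 20 * Real.exp (r / 4) := by
            apply mul_le_mul (mul_le_mul_of_nonneg_left hsr (by linarith)) h5 (Real.exp_pos _).le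
            positivity
      have h6 : u ^ 2 ≤ p ^ 2 := pow_le_pow_left₀ (by linarith) hup 2
      calc CL * Real.exp b * u ^ 2 / s2 = (CL * Real.exp b / s2) * u ^ 2 := by ring
        _ ≤ p ^ 2 * p ^ 2 := mul_le_mul h4 h6 (by positivity) (by positivity)
        _ = p ^ 4 := by ring
  have hY4 : MemLp (fun ω => -lgZ W (N - t) w (cfg η ω)) 4 P := hm4.neg
  have hYi : ∫ ω, (-lgZ W (N - t) w (cfg η ω)) ^ 4 ∂P ≤ (CA / s2) ^ 200 := by
    have : ∀ ω, (-lgZ W (N - t) w (cfg η ω)) ^ 4 = (lgZ W (N - t) w (cfg η ω)) ^ 4 := by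
      intro ω; ring
    simp only [this]
    exact hi4
  have hTL := hT Ω P (fun ω => -lgZ W (N - t) w (cfg η ω)) ((CA / s2) ^ 200) u0 p Set.univ hY4 hYi
    hu01 hu0p htail MeasurableSet.univ
  rw [Measure.restrict_univ] at hTL
  have hPu : P.real Set.univ = 1 := by simp
  rw [hPu, mul_one] at hTL
  -- the last term
  have hlast : Real.sqrt ((CA / s2) ^ 200) * Real.exp (-(p ^ (1 / 10 : ℝ)) / 2) ≤ 1 := by
    have h1 : Real.sqrt ((CA / s2) ^ 200) = (CA / s2) ^ 100 := by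
      have : (CA / s2) ^ 200 = ((CA / s2) ^ 100) ^ 2 := by ring
      rw [this, Real.sqrt_sq (by positivity)]
    rw [h1]
    have h2 : (CA / s2) ^ 100 ≤ CA ^ 100 * r ^ 2000 := by
      calc (CA / s2) ^ 100 = (CA * (1 / s2)) ^ 100 := by rw [mul_one_div]
        _ ≤ (CA * r ^ 20) ^ 100 :=
          pow_le_pow_left₀ (by positivity) (mul_le_mul_of_nonneg_left hsr (by linarith)) 100
        _ = CA ^ 100 * r ^ 2000 := by rw [mul_pow, ← pow_mul]
    have h3 : (CA / s2) ^ 100 ≤ Real.exp (p ^ (1 / 10 : ℝ) / 2) := by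
      refine h2.trans (a3.trans (Real.exp_le_exp.mpr ?_))
      linarith
    have h4 : Real.exp (p ^ (1 / 10 : ℝ) / 2) * Real.exp (-(p ^ (1 / 10 : ℝ)) / 2) = 1 := by
      rw [← Real.exp_add]
      have : p ^ (1 / 10 : ℝ) / 2 + -(p ^ (1 / 10 : ℝ)) / 2 = 0 := by ring
      rw [this, Real.exp_zero]
    calc (CA / s2) ^ 100 * Real.exp (-(p ^ (1 / 10 : ℝ)) / 2)
        ≤ Real.exp (p ^ (1 / 10 : ℝ) / 2) * Real.exp (-(p ^ (1 / 10 : ℝ)) / 2) :=
          mul_le_mul_of_nonneg_right h3 (Real.exp_pos _).le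
      _ = 1 := h4
  have hexp1 : Real.exp (-(u0 ^ (1 / 20 : ℝ))) ≤ 1 := by
    rw [Real.exp_le_one_iff]
    have : 0 ≤ u0 ^ (1 / 20 : ℝ) := Real.rpow_nonneg (by linarith) _
    linarith
  have hTL2 : ∫ ω, (max (-lgZ W (N - t) w (cfg η ω)) 0) ^ 2 ∂P ≤ u0 ^ 2 + CT + 1 := by
    have h1 : CT * Real.exp (-(u0 ^ (1 / 20 : ℝ))) ≤ CT * 1 :=
      mul_le_mul_of_nonneg_left hexp1 (by linarith)
    linarith
  -- comparison
  have hsqint : Integrable (fun ω => (lgZ W (N - t) w (cfg η ω)) ^ 2) P := hm2.integrable_sq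
  have hmaxint : Integrable (fun ω => (max (-lgZ W (N - t) w (cfg η ω)) 0) ^ 2) P := by
    refine hsqint.mono' ?_ ?_
    · exact ((hm2.neg.aestronglyMeasurable.sup aestronglyMeasurable_const).pow 2)
    · refine Filter.Eventually.of_forall (fun ω => ?_)
      rw [Real.norm_of_nonneg (sq_nonneg _)]
      rcases le_total (-lgZ W (N - t) w (cfg η ω)) 0 with h | h
      · rw [max_eq_right h]
        nlinarith [sq_nonneg (lgZ W (N - t) w (cfg η ω))]
      · rw [max_eq_left h]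
        nlinarith
  have hfin : ∫ ω, (lgZ W (N - t) w (cfg η ω)) ^ 2 ∂P ≤
      ∫ ω, ((max (-lgZ W (N - t) w (cfg η ω)) 0) ^ 2 +
        ∑ y, w y * Zr W (cfg η ω) (N - t) y) ∂P := by
    apply integral_mono hsqint (hmaxint.add hZint)
    intro ω
    exact log_sq_le _ (hZpos ω)
  rw [integral_add hmaxint hZint, hZE] at hfin
  -- conclusion
  have hu0sq : u0 ^ 2 ≤ (CL * (4 + 4 * θ1) ^ 8) ^ 2 * S ^ 16 := by
    calc u0 ^ 2 ≤ (CL * (4 + 4 * θ1) ^ 8 * S ^ 8) ^ 2 := pow_le_pow_left₀ (by linarith) hu0S 2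
      _ = (CL * (4 + 4 * θ1) ^ 8) ^ 2 * S ^ 16 := by ring
  have hS16 : S ^ 16 ≤ S ^ 17 := pow_le_pow_right₀ hS1 (by norm_num)
  have hS17 : 1 ≤ S ^ 17 := one_le_pow₀ hS1
  rw [← hS]
  have hKpos : 0 ≤ (CL * (4 + 4 * θ1) ^ 8) ^ 2 := sq_nonneg _
  calc ∫ ω, (lgZ W (N - t) w (cfg η ω)) ^ 2 ∂P ≤ u0 ^ 2 + CT + 1 + 1 := by linarith
    _ ≤ (CL * (4 + 4 * θ1) ^ 8) ^ 2 * S ^ 17 + (CT + 2) * S ^ 17 := by
      have h1 : (CL * (4 + 4 * θ1) ^ 8) ^ 2 * S ^ 16 ≤ (CL * (4 + 4 * θ1) ^ 8) ^ 2 * S ^ 17 :=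
        mul_le_mul_of_nonneg_left hS16 hKpos
      have h2 : (CT + 2) * 1 ≤ (CT + 2) * S ^ 17 := mul_le_mul_of_nonneg_left hS17 (by linarith)
      linarith
    _ = ((CL * (4 + 4 * θ1) ^ 8) ^ 2 + CT + 2) * S ^ 17 := by ring
    _ ≤ Cm * S ^ 17 := mul_le_mul_of_nonneg_right hCmK (by positivity)

end Pool.Agent.H36.CW
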